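import Mathlib

/-!
# Growth of the graded group algebra (definitions)

`R G` is the group algebra over the field with two elements, `M G` the augmentation ideal, `Fl G n` its `n`-th power
(`Fl G 0 = ⊤`). For subgroups: `MH H` the span of the `h - 1`, `KH H` the span of the `h`, `RI H = MH H * ⊤` the right
ideal generated by the `h - 1`. `cd W` is the codimension of `W` in `R G`.
-/

set_option autoImplicit false

namespace Pool.Agent.N708.VG

open MonoidAlgebra Finset

abbrev K : Type := ZMod 2

/-- the group algebra over the field with two elements -/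
abbrev R (G : Type) [Group G] : Type := MonoidAlgebra (ZMod 2) G

/-- the augmentation ideal -/
noncomputable def M (G : Type) [Group G] : Submodule (ZMod 2) (R G) :=
  Submodule.span (ZMod 2) (Set.range (fun g : G => MonoidAlgebra.of (ZMod 2) G g - 1))

/-- the powers of the augmentation ideal, with `Fl G 0 = ⊤` -/
noncomputable def Fl (G : Type) [Group G] : ℕ → Submodule (ZMod 2) (R G)
  | 0 => ⊤
  | n + 1 => M G * Fl G n

/-- span of the `h - 1`, `h ∈ H` -/
noncomputable def MH {G : Type} [Group G] (H : Subgroup G) : Submodule (ZMod 2) (R G) :=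
  Submodule.span (ZMod 2) ((fun g : G => MonoidAlgebra.of (ZMod 2) G g - 1) '' (H : Set G))

/-- span of the `h`, `h ∈ H` -/
noncomputable def KH {G : Type} [Group G] (H : Subgroup G) : Submodule (ZMod 2) (R G) :=
  Submodule.span (ZMod 2) ((fun g : G => MonoidAlgebra.of (ZMod 2) G g) '' (H : Set G))

/-- the right ideal generated by the `h - 1`, `h ∈ H` -/
noncomputable def RI {G : Type} [Group G] (H : Subgroup G) : Submodule (ZMod 2) (R G) := MH H * ⊤

/-- codimension -/
noncomputable def cd {G : Type} [Group G] (W : Submodule (ZMod 2) (R G)) : ℕ := Module.finrank (ZMod 2) (R G ⧸ W)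

/-- `dim R / (M_H R + M^n)` -/
noncomputable def An {G : Type} [Group G] (H : Subgroup G) (n : ℕ) : ℕ := cd (RI H ⊔ Fl G n)

/-- `dim R / M^n` -/
noncomputable def al (G : Type) [Group G] (n : ℕ) : ℕ := cd (Fl G n)

/-- `dim K[N] / (M_A K[N] + K[N] ∩ M^n)`, as a difference of codimensions -/
noncomputable def ep {G : Type} [Group G] (N A : Subgroup G) (n : ℕ) : ℕ :=
  cd (MH A * KH N ⊔ Fl G n) - cd (KH N ⊔ Fl G n)

/-- the coefficients of the Hilbert series of `K[A \ N]` -/
noncomputable def ec {G : Type} [Group G] (N A : Subgroup G) (j : ℕ) : ℕ := ep N A (j + 1) - ep N A j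

/-! ### the powers are two-sided ideals -/

variable {G : Type} [Group G]

lemma of_sub_mem_M (g : G) : MonoidAlgebra.of (ZMod 2) G g - 1 ∈ M G := Submodule.subset_span ⟨g, rfl⟩

lemma smul_mul_of_mem_M (g : G) {x : R G} (hx : x ∈ M G) : MonoidAlgebra.of (ZMod 2) G g * x ∈ M G := by
  refine Submodule.span_induction ?_ ?_ ?_ ?_ hx
  · rintro _ ⟨h, rfl⟩
    have : MonoidAlgebra.of (ZMod 2) G g * (MonoidAlgebra.of (ZMod 2) G h - 1) =
        (MonoidAlgebra.of (ZMod 2) G (g * h) - 1) - (MonoidAlgebra.of (ZMod 2) G g - 1) := by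
      rw [map_mul, mul_sub, mul_one]; abel
    rw [this]
    exact (M G).sub_mem (of_sub_mem_M _) (of_sub_mem_M _)
  · simp
  · intro a b _ _ ha hb
    rw [mul_add]
    exact (M G).add_mem ha hb
  · intro c a _ ha
    rw [mul_smul_comm]
    exact (M G).smul_mem _ ha

lemma mul_of_mem_M (g : G) {x : R G} (hx : x ∈ M G) : x * MonoidAlgebra.of (ZMod 2) G g ∈ M G := by
  refine Submodule.span_induction ?_ ?_ ?_ ?_ hx
  · rintro _ ⟨h, rfl⟩
    have : (MonoidAlgebra.of (ZMod 2) G h - 1) * MonoidAlgebra.of (ZMod 2) G g =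
        (MonoidAlgebra.of (ZMod 2) G (h * g) - 1) - (MonoidAlgebra.of (ZMod 2) G g - 1) := by
      rw [map_mul, sub_mul, one_mul]; abel
    rw [this]
    exact (M G).sub_mem (of_sub_mem_M _) (of_sub_mem_M _)
  · simp
  · intro a b _ _ ha hb
    rw [add_mul]
    exact (M G).add_mem ha hb
  · intro c a _ ha
    rw [smul_mul_assoc]
    exact (M G).smul_mem _ ha

lemma top_eq_span : (⊤ : Submodule (ZMod 2) (R G)) =
    Submodule.span (ZMod 2) (Set.range (fun g : G => MonoidAlgebra.of (ZMod 2) G g)) := by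
  symm
  rw [eq_top_iff]
  intro x _
  induction x using MonoidAlgebra.induction_on with
  | of g => exact Submodule.subset_span ⟨g, rfl⟩
  | add a b ha hb => exact Submodule.add_mem _ (ha trivial) (hb trivial)
  | smul r f hf => exact Submodule.smul_mem _ _ (hf trivial)

lemma left_M (r : R G) {x : R G} (hx : x ∈ M G) : r * x ∈ M G := by
  have hr : r ∈ Submodule.span (ZMod 2) (Set.range (fun g : G => MonoidAlgebra.of (ZMod 2) G g)) := by
    rw [← top_eq_span]; trivial
  refine Submodule.span_induction ?_ ?_ ?_ ?_ hr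
  · rintro _ ⟨g, rfl⟩
    exact smul_mul_of_mem_M g hx
  · simp
  · intro a b _ _ ha hb
    rw [add_mul]
    exact (M G).add_mem ha hb
  · intro c a _ ha
    rw [smul_mul_assoc]
    exact (M G).smul_mem _ ha

lemma right_M (r : R G) {x : R G} (hx : x ∈ M G) : x * r ∈ M G := by
  have hr : r ∈ Submodule.span (ZMod 2) (Set.range (fun g : G => MonoidAlgebra.of (ZMod 2) G g)) := by
    rw [← top_eq_span]; trivial
  refine Submodule.span_induction ?_ ?_ ?_ ?_ hr
  · rintro _ ⟨g, rfl⟩
    exact mul_of_mem_M g hx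
  · simp
  · intro a b _ _ ha hb
    rw [mul_add]
    exact (M G).add_mem ha hb
  · intro c a _ ha
    rw [mul_smul_comm]
    exact (M G).smul_mem _ ha

lemma Fl_one : Fl G 1 = M G := by
  show M G * ⊤ = M G
  apply le_antisymm
  · rw [Submodule.mul_le]
    intro m hm n _
    exact right_M n hm
  · intro x hx
    have := Submodule.mul_mem_mul hx (Submodule.mem_top (x := (1 : R G)) (R := ZMod 2))
    rwa [mul_one] at this

lemma left_Fl (n : ℕ) (r : R G) {x : R G} (hx : x ∈ Fl G n) : r * x ∈ Fl G n := by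
  cases n with
  | zero => trivial
  | succ n =>
    refine Submodule.mul_induction_on hx ?_ ?_
    · intro m hm y hy
      rw [← mul_assoc]
      exact Submodule.mul_mem_mul (left_M r hm) hy
    · intro a b ha hb
      rw [mul_add]
      exact Submodule.add_mem _ ha hb

lemma right_Fl (n : ℕ) (r : R G) {x : R G} (hx : x ∈ Fl G n) : x * r ∈ Fl G n := by
  induction n generalizing x with
  | zero => trivial
  | succ n ih =>
    refine Submodule.mul_induction_on hx ?_ ?_
    · intro m hm y hy
      rw [mul_assoc]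
      exact Submodule.mul_mem_mul hm (ih hy)
    · intro a b ha hb
      rw [add_mul]
      exact Submodule.add_mem _ ha hb

lemma Fl_succ_le (n : ℕ) : Fl G (n + 1) ≤ Fl G n := by
  show M G * Fl G n ≤ Fl G n
  rw [Submodule.mul_le]
  intro m _ x hx
  exact left_Fl n m hx

lemma Fl_antitone : Antitone (Fl G) := antitone_nat_of_succ_le Fl_succ_le

lemma Fl_mul_mem (m n : ℕ) {x y : R G} (hx : x ∈ Fl G m) (hy : y ∈ Fl G n) : x * y ∈ Fl G (m + n) := by
  induction m generalizing x with
  | zero => rw [zero_add]; exact left_Fl n x hy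
  | succ m ih =>
    refine Submodule.mul_induction_on hx ?_ ?_
    · intro a ha b hb
      rw [mul_assoc, show m + 1 + n = (m + n) + 1 by ring]
      exact Submodule.mul_mem_mul ha (ih hb)
    · intro a b ha hb
      rw [add_mul]
      exact Submodule.add_mem _ ha hb

lemma Fl_eq_pow (n : ℕ) : Fl G (n + 1) = M G ^ (n + 1) := by
  induction n with
  | zero => rw [pow_one]; exact Fl_one
  | succ n ih =>
    rw [pow_succ' (M G) (n + 1), ← ih]
    rfl

lemma of_sub_mem_Fl_one (g : G) : MonoidAlgebra.of (ZMod 2) G g - 1 ∈ Fl G 1 := by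
  rw [Fl_one]; exact of_sub_mem_M g

/-- the dimension subgroups `{g | g - 1 ∈ M^n}` -/
def Dn (G : Type) [Group G] (n : ℕ) : Subgroup G where
  carrier := {g | MonoidAlgebra.of (ZMod 2) G g - 1 ∈ Fl G n}
  mul_mem' := by
    intro a b ha hb
    show MonoidAlgebra.of (ZMod 2) G (a * b) - 1 ∈ Fl G n
    have : MonoidAlgebra.of (ZMod 2) G (a * b) - 1 =
        (MonoidAlgebra.of (ZMod 2) G a - 1) * MonoidAlgebra.of (ZMod 2) G b + (MonoidAlgebra.of (ZMod 2) G b - 1) := by
      rw [map_mul, sub_mul, one_mul]; abel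
    rw [this]
    exact Submodule.add_mem _ (right_Fl n _ ha) hb
  one_mem' := by
    show MonoidAlgebra.of (ZMod 2) G 1 - 1 ∈ Fl G n
    rw [map_one, sub_self]
    exact Submodule.zero_mem _
  inv_mem' := by
    intro a ha
    show MonoidAlgebra.of (ZMod 2) G a⁻¹ - 1 ∈ Fl G n
    have : MonoidAlgebra.of (ZMod 2) G a⁻¹ - 1 =
        - (MonoidAlgebra.of (ZMod 2) G a⁻¹ * (MonoidAlgebra.of (ZMod 2) G a - 1)) := by
      rw [mul_sub, mul_one, ← map_mul, inv_mul_cancel, map_one]; abel
    rw [this]
    exact Submodule.neg_mem _ (left_Fl n _ ha)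

lemma mem_Dn {n : ℕ} {g : G} : g ∈ Dn G n ↔ MonoidAlgebra.of (ZMod 2) G g - 1 ∈ Fl G n := Iff.rfl

instance Dn_normal (n : ℕ) : (Dn G n).Normal where
  conj_mem := by
    intro a ha g
    rw [mem_Dn] at ha ⊢
    have : MonoidAlgebra.of (ZMod 2) G (g * a * g⁻¹) - 1 =
        MonoidAlgebra.of (ZMod 2) G g * (MonoidAlgebra.of (ZMod 2) G a - 1) * MonoidAlgebra.of (ZMod 2) G g⁻¹ := by
      rw [mul_sub, sub_mul, mul_one, ← map_mul, ← map_mul, ← map_mul, mul_inv_cancel, map_one]
    rw [this]
    exact right_Fl n _ (left_Fl n _ ha)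

/-- the linear map with prescribed values on the group elements -/
noncomputable def lin {V : Type} [AddCommGroup V] [Module (ZMod 2) V] (f : G → V) : R G →ₗ[ZMod 2] V :=
  (MonoidAlgebra.basis G (ZMod 2)).constr (ZMod 2) f

lemma lin_of {V : Type} [AddCommGroup V] [Module (ZMod 2) V] (f : G → V) (g : G) :
    lin f (MonoidAlgebra.of (ZMod 2) G g) = f g := by
  have : MonoidAlgebra.of (ZMod 2) G g = MonoidAlgebra.basis G (ZMod 2) g := by
    simp [MonoidAlgebra.basis]
  rw [this, lin, Module.Basis.constr_basis]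

lemma lin_ext {V : Type} [AddCommGroup V] [Module (ZMod 2) V] {φ ψ : R G →ₗ[ZMod 2] V}
    (h : ∀ g : G, φ (MonoidAlgebra.of (ZMod 2) G g) = ψ (MonoidAlgebra.of (ZMod 2) G g)) : φ = ψ := by
  refine (MonoidAlgebra.basis G (ZMod 2)).ext (fun g => ?_)
  have : MonoidAlgebra.of (ZMod 2) G g = MonoidAlgebra.basis G (ZMod 2) g := by
    simp [MonoidAlgebra.basis]
  rw [← this]
  exact h g

/-- the linear map multiplying `g` by `lam g` -/
noncomputable def DL (lam : R G →ₗ[ZMod 2] ZMod 2) : R G →ₗ[ZMod 2] R G :=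
  lin (fun g => lam (MonoidAlgebra.of (ZMod 2) G g) • MonoidAlgebra.of (ZMod 2) G g)

/-- the map of group algebras induced by a homomorphism, as a linear map -/
noncomputable def fl {Q : Type} [Group Q] (f : G →* Q) : R G →ₗ[ZMod 2] R Q :=
  (MonoidAlgebra.mapDomainAlgHom (ZMod 2) (ZMod 2) f).toLinearMap

/-- ordered products over `S ∩ range i` -/
def zz {A : Type} [Monoid A] (f : ℕ → A) (i : ℕ) (S : Finset ℕ) : A :=
  ((List.range i).map (fun s => if s ∈ S then f s else 1)).prod

end Pool.Agent.N708.VG
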