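import Pool.Agent.N708.VG.Defs

/-!
# Statements of project VG

A finitely generated amenable group (locally finite 2-group by cyclic) whose graded group algebra over the field with two
elements has exponential growth.
-/

set_option autoImplicit false

namespace Pool.Agent.N708.VG

open Finset

/-- `R / M^n` is finite dimensional -/
def S_FD : Prop := ∀ (G : Type) [Group G], Group.FG G → ∀ n : ℕ, Module.Finite (ZMod 2) (R G ⧸ Fl G n)

/-- `G / D_n` is a finite 2-group -/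
def S_DN : Prop := ∀ (G : Type) [Group G], Group.FG G → ∀ n : ℕ, Finite (G ⧸ Dn G n) ∧ IsPGroup 2 (G ⧸ Dn G n)

/-- transfer along a surjection whose kernel lies in `D_n` -/
def S_TR : Prop := ∀ (G Q : Type) [Group G] [Group Q] (f : G →* Q) (n : ℕ), Function.Surjective f →
  (∀ g : G, f g = 1 → g ∈ Dn G n) → ∀ m : ℕ, m ≤ n →
    (∀ H : Subgroup G, An H m = An (H.map f) m) ∧
    (∀ N A : Subgroup G, ep N A m = ep (N.map f) (A.map f) m) ∧
    al G m = al Q m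

/-- multiplication by a function of degree `≤ d` lowers the filtration by at most `d` -/
def S_DL : Prop := ∀ (G : Type) [Group G] (lam : R G →ₗ[ZMod 2] ZMod 2) (d : ℕ),
  (∀ x ∈ Fl G (d + 1), lam x = 0) → ∀ n : ℕ, ∀ x ∈ Fl G n, DL lam x ∈ Fl G (n - d)

/-- Jennings basis of a finite 2-group adapted to a chain of subgroups -/
def S_PBW : Prop := ∀ (Q : Type) [Group Q] [Finite Q], IsPGroup 2 Q → ∀ (r : ℕ) (H : ℕ → Subgroup Q), H 0 = ⊥ →
  H r = ⊤ → (∀ i : ℕ, i < r → H i ≤ H (i + 1) ∧ Nat.card (H (i + 1)) = 2 * Nat.card (H i)) →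
  ∃ (g : ℕ → Q) (d : ℕ → ℕ), (∀ i : ℕ, i < r → g i ∈ H (i + 1) ∧ 1 ≤ d i) ∧
    ∀ i : ℕ, i ≤ r →
      LinearIndependent (ZMod 2) (fun S : ((range i).powerset : Finset (Finset ℕ)) =>
        zz (fun s => MonoidAlgebra.of (ZMod 2) Q (g s) - 1) i S.1) ∧
      ∀ n : ℕ, KH (H i) ⊓ Fl Q n = Submodule.span (ZMod 2)
        {x | ∃ S ∈ (range i).powerset, n ≤ ∑ s ∈ S, d s ∧
          x = zz (fun s => MonoidAlgebra.of (ZMod 2) Q (g s) - 1) i S}

/-- multiplicativity of the Hilbert series for finite 2-groups -/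
def S_CNT : Prop := ∀ (Q : Type) [Group Q] [Finite Q], IsPGroup 2 Q → ∀ A N : Subgroup Q, A ≤ N → ∀ n : ℕ,
  An A n = ∑ j ∈ range n, ec N A j * An N (n - j)

/-- multiplicativity of the Hilbert series for finitely generated groups -/
def S_EQ : Prop := ∀ (G : Type) [Group G], Group.FG G → ∀ A N : Subgroup G, A ≤ N → ∀ n : ℕ,
  An A n = ∑ j ∈ range n, ec N A j * An N (n - j)

/-- monotonicity and the bound for finite subgroups -/
def S_EM : Prop := ∀ (G : Type) [Group G], Group.FG G → ∀ A N : Subgroup G, A ≤ N →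
  (∀ n : ℕ, ep N A n ≤ ep N A (n + 1)) ∧ (Finite N → ∀ n : ℕ, ep N A n ≤ Nat.card N) ∧
  (∀ n : ℕ, An N n ≤ An N (n + 1)) ∧ (∀ n : ℕ, An N n ≤ al G n) ∧ (∀ n : ℕ, 1 ≤ An N (n + 1)) ∧
  An (⊥ : Subgroup G) = al G ∧ An N 0 = 0

/-- the recursion of a group generated by `N` and `t`; equality if left multiplication by `t - 1` is injective in the
appropriate sense -/
def S_T12 : Prop := ∀ (G : Type) [Group G], Group.FG G → ∀ (N A : Subgroup G) (t : G),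
  Subgroup.closure ((N : Set G) ∪ {t}) = ⊤ → A ≤ N → (∀ a ∈ A, t * a * t⁻¹ ∈ N) → ∀ n : ℕ,
    An N (n + 1) ≤ 1 + An A n ∧
    ((∀ y : R G, (MonoidAlgebra.of (ZMod 2) G t - 1) * y ∈ RI N → y ∈ RI A) → An N (n + 1) = 1 + An A n)

/-- Fox calculus for HNN extensions -/
def S_KEY : Prop := ∀ (N : Type) [Group N] (A B : Subgroup N) (φ : A ≃* B) (y : R (HNNExtension N A B φ)),
  (MonoidAlgebra.of (ZMod 2) (HNNExtension N A B φ) HNNExtension.t - 1) * y ∈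
      RI (HNNExtension.of : N →* HNNExtension N A B φ).range →
    y ∈ RI (A.map (HNNExtension.of : N →* HNNExtension N A B φ))

/-- generation of HNN extensions -/
def S_HG : Prop := ∀ (N : Type) [Group N] (A B : Subgroup N) (φ : A ≃* B),
  Subgroup.closure (((HNNExtension.of : N →* HNNExtension N A B φ).range : Set (HNNExtension N A B φ)) ∪
    {(HNNExtension.t : HNNExtension N A B φ)}) = ⊤ ∧ (Finite N → Group.FG (HNNExtension N A B φ))

/-- the subgroup generated by `U` and `t U t⁻¹` -/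
def VV {G : Type} [Group G] (U : Subgroup G) (t : G) : Subgroup G := U ⊔ U.map (MulAut.conj t).toMonoidHom

/-- `f` is a quotient map from an HNN extension of `N` to an HNN extension of `N'` as in the construction -/
structure Next (N : Type) [Group N] (A B : Subgroup N) (φ : A ≃* B) (N' : Type) [Group N'] (A' B' : Subgroup N')
    (φ' : A' ≃* B') (k : ℕ) (f : HNNExtension N A B φ →* HNNExtension N' A' B' φ') : Prop where
  surj : Function.Surjective f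
  ft : f HNNExtension.t = HNNExtension.t
  ker : ∀ g : HNNExtension N A B φ, f g = 1 → g ∈ Dn (HNNExtension N A B φ) k
  range : (HNNExtension.of : N' →* HNNExtension N' A' B' φ').range =
    (VV (HNNExtension.of : N →* HNNExtension N A B φ).range HNNExtension.t).map f
  mapA : A'.map (HNNExtension.of : N' →* HNNExtension N' A' B' φ') =
    (HNNExtension.of : N →* HNNExtension N A B φ).range.map f

/-- existence of the next HNN extension -/
def S_NEXT : Prop := ∀ (N : Type) [Group N] [Finite N] (A B : Subgroup N) (φ : A ≃* B) (k : ℕ),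
  ∃ (N' : Type) (_ : Group N') (_ : Finite N') (A' B' : Subgroup N') (φ' : A' ≃* B')
    (f : HNNExtension N A B φ →* HNNExtension N' A' B' φ'), Next N A B φ N' A' B' φ' k f

/-- numerical lemma, part one -/
def S_NUMA : Prop := ∀ (a u v e : ℕ → ℕ) (C₀ : ℕ) (c c₂ : ℝ), 1 < c₂ → c₂ < c → v 0 = 0 →
  (∀ n : ℕ, v (n + 1) ≤ 1 + u n) → (∀ n : ℕ, u n = ∑ j ∈ range n, e j * v (n - j)) → (∀ n : ℕ, a n ≤ C₀ * u n) →
  (∀ n : ℕ, 1 ≤ n → c ^ (n - 1) ≤ (a n : ℝ)) → ∃ k : ℕ, 1 ≤ ∑ j ∈ range k, (e j : ℝ) / c₂ ^ (j + 1)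

/-- numerical lemma, part two -/
def S_NUMB : Prop := ∀ (u v e : ℕ → ℕ) (k : ℕ) (c₂ : ℝ), 1 < c₂ → 1 ≤ ∑ j ∈ range k, (e j : ℝ) / c₂ ^ (j + 1) →
  (∀ n : ℕ, v (n + 1) = 1 + u n) → (∀ n : ℕ, u n = ∑ j ∈ range n, e j * v (n - j)) →
  ∀ n : ℕ, 1 ≤ n → c₂ ^ n / c₂ ^ k ≤ (v n : ℝ)

/-- one step of the construction keeps the growth -/
def S_STEP : Prop := ∀ (N : Type) [Group N] [Finite N] (A B : Subgroup N) (φ : A ≃* B) (c c' : ℝ), 1 < c' → c' < c →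
  (∀ n : ℕ, 1 ≤ n → c ^ (n - 1) ≤ (al (HNNExtension N A B φ) n : ℝ)) →
  ∃ K₀ : ℕ, ∀ k : ℕ, K₀ ≤ k → ∀ (N' : Type) [Group N'] [Finite N'] (A' B' : Subgroup N') (φ' : A' ≃* B')
    (f : HNNExtension N A B φ →* HNNExtension N' A' B' φ'), Next N A B φ N' A' B' φ' k f →
    ∀ n : ℕ, 1 ≤ n → c' ^ (n - 1) ≤ (al (HNNExtension N' A' B' φ') n : ℝ)

/-- the initial HNN extension `C_2 * Z` -/
def S_BASE : Prop := ∃ c : ℝ, 1 < c ∧ ∀ n : ℕ, 1 ≤ n →
  c ^ (n - 1) ≤ (al (HNNExtension (Multiplicative (ZMod 2)) ⊥ ⊥ (MulEquiv.refl _)) n : ℝ)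

/-- an infinite sequence of steps -/
def S_SEQ : Prop := ∃ (c : ℝ) (G : ℕ → Type) (_ : ∀ m, Group (G m)) (f : ∀ m, G m →* G (m + 1)) (t a : ∀ m, G m)
    (H : ∀ m, Subgroup (G m)) (k : ℕ → ℕ), 1 < c ∧
  (∀ m, Function.Surjective (f m)) ∧ (∀ m, f m (t m) = t (m + 1)) ∧ (∀ m, f m (a m) = a (m + 1)) ∧
  (∀ m, Finite (H m)) ∧ (∀ m, (H m).map (f m) ≤ H (m + 1)) ∧
  (∀ m, ((H m).map (f m)).map (MulAut.conj (t (m + 1))).toMonoidHom ≤ H (m + 1)) ∧ (∀ m, a m ∈ H m) ∧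
  Subgroup.closure {a 0, t 0} = ⊤ ∧ Monotone k ∧ (∀ m, m ≤ k m) ∧ (∀ m g, f m g = 1 → g ∈ Dn (G m) (k m)) ∧
  (∀ m n, 1 ≤ n → c ^ (n - 1) ≤ (al (G m) n : ℝ))

/-- the limit group -/
def S_LIM : Prop := ∃ (c : ℝ) (Γ : Type) (_ : Group Γ) (a t : Γ) (H : ℕ → Subgroup Γ), 1 < c ∧ Group.FG Γ ∧
  (∀ n : ℕ, 1 ≤ n → c ^ (n - 1) ≤ (al Γ n : ℝ)) ∧ Subgroup.closure {a, t} = ⊤ ∧ (∀ m, Finite (H m)) ∧
  (∀ m, H m ≤ H (m + 1)) ∧ (∀ m, (H m).map (MulAut.conj t).toMonoidHom ≤ H (m + 1)) ∧ (∀ m, a ∈ H m)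

/-- amenability -/
def S_AMEN : Prop := ∀ (Γ : Type) [Group Γ] (a t : Γ) (H : ℕ → Subgroup Γ), Subgroup.closure {a, t} = ⊤ →
  (∀ m, Finite (H m)) → (∀ m, H m ≤ H (m + 1)) → (∀ m, (H m).map (MulAut.conj t).toMonoidHom ≤ H (m + 1)) →
  (∀ m, a ∈ H m) →
  ∃ μ : Set Γ → ℝ, (∀ S, 0 ≤ μ S) ∧ μ Set.univ = 1 ∧ (∀ A B : Set Γ, Disjoint A B → μ (A ∪ B) = μ A + μ B) ∧
    ∀ (g : Γ) (S : Set Γ), μ ((fun x => g * x) ⁻¹' S) = μ S

end Pool.Agent.N708.VG
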