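import Pool.Agent.N708.VG.Stm

/-!
# Statements of project VG, part two: the Jennings basis
-/

set_option autoImplicit false

namespace Pool.Agent.N708.VG

open Finset

/-- the products `∏_{s ∈ S} (g s - 1)`, in increasing order, over `S ∩ range i` -/
noncomputable def pz {Q : Type} [Group Q] (g : ℕ → Q) (i : ℕ) (S : Finset ℕ) : R Q :=
  zz (fun s => MonoidAlgebra.of (ZMod 2) Q (g s) - 1) i S

/-- `g 0, ..., g (i-1)` is a Jennings basis of `H`, with degrees `d s` -/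
def IH (Q : Type) [Group Q] (i : ℕ) (g : ℕ → Q) (d : ℕ → ℕ) (H : Subgroup Q) : Prop :=
  LinearIndependent (ZMod 2) (fun S : ((range i).powerset : Finset (Finset ℕ)) => pz g i S.1) ∧
  ∀ n : ℕ, KH H ⊓ Fl Q n = Submodule.span (ZMod 2)
    {x | ∃ S ∈ (range i).powerset, n ≤ ∑ s ∈ S, d s ∧ x = pz g i S}

/-- expansion of the products into group elements (characteristic two) -/
def S_ZX : Prop := ∀ (Q : Type) [Group Q] (g : ℕ → Q) (i : ℕ) (S : Finset ℕ), S ⊆ range i →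
  pz g i S = ∑ T ∈ S.powerset, MonoidAlgebra.of (ZMod 2) Q (zz g i T) ∧
  MonoidAlgebra.of (ZMod 2) Q (zz g i S) = ∑ T ∈ S.powerset, pz g i T

/-- the operators `DL` on the products -/
def S_ZD : Prop := ∀ (Q : Type) [Group Q] (g : ℕ → Q) (i : ℕ) (lam : R Q →ₗ[ZMod 2] ZMod 2) (j : ℕ),
  (∀ T : Finset ℕ, T ⊆ range i → lam (pz g i T) = if T = {j} then 1 else 0) → j < i →
  ∀ S : Finset ℕ, S ⊆ range i → DL lam (pz g i S) = if j ∈ S then pz g i S + pz g i (S.erase j) else 0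

/-- primitive elements are group elements -/
def S_PRI : Prop := ∀ (Q : Type) [Group Q] [Finite Q] (i : ℕ) (g : ℕ → Q) (d : ℕ → ℕ) (H : Subgroup Q),
  (∀ s : ℕ, s < i → g s ∈ H ∧ 1 ≤ d s) → IH Q i g d H → ∀ (q : Q) (D : ℕ), 1 ≤ D →
  MonoidAlgebra.of (ZMod 2) Q q - 1 ∈ Fl Q D → ∀ u ∈ KH H, MonoidAlgebra.of (ZMod 2) Q q - 1 - u ∈ Fl Q (D + 1) →
  ∃ h ∈ H, MonoidAlgebra.of (ZMod 2) Q h - 1 - u ∈ Fl Q (D + 1)

/-- the induction step for the Jennings basis -/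
def S_PBI : Prop := ∀ (Q : Type) [Group Q] [Finite Q], IsPGroup 2 Q → ∀ (i : ℕ) (g : ℕ → Q) (d : ℕ → ℕ)
  (H H' : Subgroup Q), H ≤ H' → Nat.card H' = 2 * Nat.card H → (∀ s : ℕ, s < i → g s ∈ H ∧ 1 ≤ d s) → IH Q i g d H →
  ∃ (x : Q) (D : ℕ), x ∈ H' ∧ 1 ≤ D ∧ IH Q (i + 1) (Function.update g i x) (Function.update d i D) H'

/-- chains of subgroups in finite 2-groups -/
def S_CH : Prop := ∀ (Q : Type) [Group Q] [Finite Q], IsPGroup 2 Q → ∀ A N : Subgroup Q, A ≤ N →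
  ∃ (r : ℕ) (H : ℕ → Subgroup Q) (s s' : ℕ), s ≤ s' ∧ s' ≤ r ∧ H 0 = ⊥ ∧ H s = A ∧ H s' = N ∧ H r = ⊤ ∧
    ∀ i : ℕ, i < r → H i ≤ H (i + 1) ∧ Nat.card (H (i + 1)) = 2 * Nat.card (H i)

/-- description of the relevant subspaces in the Jennings basis -/
def S_BS : Prop := ∀ (Q : Type) [Group Q] [Finite Q] (r : ℕ) (H : ℕ → Subgroup Q) (g : ℕ → Q) (d : ℕ → ℕ),
  H 0 = ⊥ → H r = ⊤ → (∀ i : ℕ, i < r → H i ≤ H (i + 1)) → (∀ i : ℕ, i < r → g i ∈ H (i + 1) ∧ 1 ≤ d i) →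
  (∀ i : ℕ, i ≤ r → IH Q i g d (H i)) → ∀ s s' : ℕ, s ≤ s' → s' ≤ r →
  RI (H s) = Submodule.span (ZMod 2) {x | ∃ S ∈ (range r).powerset, (∃ y ∈ S, y < s) ∧ x = pz g r S} ∧
  KH (H s) = Submodule.span (ZMod 2) {x | ∃ S ∈ (range s).powerset, x = pz g r S} ∧
  MH (H s) * KH (H s') =
    Submodule.span (ZMod 2) {x | ∃ S ∈ (range s').powerset, (∃ y ∈ S, y < s) ∧ x = pz g r S}

end Pool.Agent.N708.VG
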