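import Pool.Agent.N708.VG.Stm2

/-!
# Statements of project VG, part three
-/

set_option autoImplicit false

namespace Pool.Agent.N708.VG

open Finset

/-- the augmentation ideal of a finite 2-group is nilpotent -/
def S_NIL : Prop := ∀ (Q : Type) [Group Q] [Finite Q], IsPGroup 2 Q → ∃ L : ℕ, Fl Q L = ⊥

/-- transfer of the dimension subgroups along a surjection whose kernel lies in `D_n` -/
def S_TK : Prop := ∀ (G Q : Type) [Group G] [Group Q] (f : G →* Q) (n : ℕ), Function.Surjective f →
  (∀ g : G, f g = 1 → g ∈ Dn G n) → ∀ g : G, f g ∈ Dn Q n → g ∈ Dn G n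

end Pool.Agent.N708.VG
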